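import Pool.Agent.R309.PB.Core

/-!
# MP_5c36f9_al, Q1: the answer is NO

There are a Bergman group and a slowly oscillating function on it that is not constant at
infinity.  The construction is in `Pool/Agent/R309/PB` (proof in `notes.md` there).
-/

namespace Pool.Agent.Results.MP_5c36f9_al.BergmanNotConstant

open scoped Topology Pointwise

/-- the ball `E_F[x] = {x} ∪ F x` of the finitary ballean -/
def ball {G : Type*} [Group G] (F : Set G) (x : G) : Set G :=
  {x} ∪ {y | ∃ g ∈ F, y = g * x}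

/-- slowly oscillating functions on the finitary ballean of `G` -/
def SlowlyOscillating {G : Type*} [Group G] (f : G → ℝ) : Prop :=
  ∀ F : Set G, F.Finite → ∀ ε : ℝ, 0 < ε →
    ∃ B : Set G, B.Finite ∧ ∀ x, x ∉ B → Metric.diam (f '' ball F x) < ε

/-- `f` is constant at infinity -/
def ConstantAtInfinity {G : Type*} [Group G] (f : G → ℝ) : Prop :=
  ∃ c : ℝ, ∀ O ∈ 𝓝 c, ((f ⁻¹' O)ᶜ).Finite

/-- `G` is Bergman: there is no strictly increasing sequence `X_0 ⊂ X_1 ⊂ ⋯` of subsets of `G`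
with union `G`, `X_n = X_n⁻¹` and `X_n X_n ⊆ X_{n+1}` for all `n` -/
def Bergman (G : Type*) [Group G] : Prop :=
  ¬ ∃ X : ℕ → Set G, StrictMono X ∧ (⋃ n, X n) = Set.univ ∧
    ∀ n, X n = (X n)⁻¹ ∧ X n * X n ⊆ X (n + 1)

theorem slowly_of_SO {G : Type*} [Group G] {φ : G → ℝ} (h : PB.SO φ) : SlowlyOscillating φ := by
  intro F hF ε hε
  refine ⟨⋃ f ∈ F, {x : G | ε / 4 ≤ |φ (f * x) - φ x|}, hF.biUnion fun f _ => h f (ε / 4)
    (by linarith), ?_⟩
  intro x hx
  have hx' : ∀ y ∈ ball F x, |φ y - φ x| ≤ ε / 4 := by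
    intro y hy
    rcases hy with hy | ⟨f, hf, rfl⟩
    · rw [Set.mem_singleton_iff.mp hy]
      simp; linarith
    · by_contra hcon
      apply hx
      simp only [Set.mem_iUnion]
      exact ⟨f, hf, (not_le.mp hcon).le⟩
  have : Metric.diam (φ '' ball F x) ≤ ε / 2 := by
    apply Metric.diam_le_of_forall_dist_le (by linarith)
    rintro _ ⟨y, hy, rfl⟩ _ ⟨z, hz, rfl⟩
    rw [Real.dist_eq]
    have h1 := hx' y hy
    have h2 := hx' z hz
    have h3 : |φ y - φ z| ≤ |φ y - φ x| + |φ x - φ z| := abs_sub_le _ _ _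
    rw [abs_sub_comm (φ x)] at h3
    linarith
  linarith

theorem not_const {G : Type*} [Group G] {φ : G → ℝ} (h0 : {x | φ x = 0}.Infinite)
    (h1 : {x | φ x = 1}.Infinite) : ¬ ConstantAtInfinity φ := by
  rintro ⟨c, hc⟩
  have hU := hc (Metric.ball c (1 / 3)) (Metric.ball_mem_nhds _ (by norm_num))
  by_cases hz : (0 : ℝ) ∈ Metric.ball c (1 / 3)
  · apply h1
    refine hU.subset ?_
    intro x hx hh
    have hx' : φ x = 1 := hx
    have hh' : φ x ∈ Metric.ball c (1 / 3) := hh
    rw [hx'] at hh'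
    rw [Metric.mem_ball, Real.dist_eq, abs_lt] at hz hh'
    linarith [hz.1, hz.2, hh'.1, hh'.2]
  · apply h0
    refine hU.subset ?_
    intro x hx hh
    have hx' : φ x = 0 := hx
    have hh' : φ x ∈ Metric.ball c (1 / 3) := hh
    rw [hx'] at hh'
    exact hz hh'

/-- There are a Bergman group and a slowly oscillating function on it that is not constant at
infinity. -/
theorem result : ∃ (G : Type) (_ : Group G), Bergman G ∧
    ∃ f : G → ℝ, SlowlyOscillating f ∧ ¬ ConstantAtInfinity f := by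
  obtain ⟨G, hG, hB, -, φ, hφ, h0, h1⟩ := PB.core
  exact ⟨G, hG, hB, φ, slowly_of_SO hφ, not_const h0 h1⟩

end Pool.Agent.Results.MP_5c36f9_al.BergmanNotConstant
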