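import Pool.Agent.R650.SoPerm

/-!
# Slowly oscillating functions on permutation groups

The special case `G = S_X` (for an arbitrary set `X`) of question Q1 of problem MP_5c36f9_al. The
definitions are in `Pool/Agent/R650/SoPerm.lean`:

* `SlowlyOscillating f`: for every finite `F` and every `ε > 0` there is a finite `B` such that
  `diam f ({x} ∪ F x) < ε` for all `x` outside `B`;
* `ConstantAtInfinity f`: there is a real `c` such that for every neighbourhood `O` of `c` the set
  of the `x` with `f x` outside `O` is finite.

The same file contains a criterion for general groups (`criterion`), from which this is deduced.
-/

set_option autoImplicit false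

namespace Pool.Agent.Results.MP_5c36f9_al.PermutationGroups

open Pool.Agent.R650.SoPerm (SlowlyOscillating ConstantAtInfinity)

universe u

/-- For every set `X`, every slowly oscillating function on the group of all permutations of `X`
is constant at infinity. -/
theorem result (X : Type u) (f : Equiv.Perm X → ℝ) (hf : SlowlyOscillating f) :
    ConstantAtInfinity f :=
  Pool.Agent.R650.SoPerm.perm f hf

end Pool.Agent.Results.MP_5c36f9_al.PermutationGroups
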